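import Pool.Agent.W96.CL.Stm

set_option autoImplicit false

open MeasureTheory Filter Topology Set

namespace W96CL

namespace W501DBL

theorem kk_pos (l : ℝ) : 0 < kk l := by
  unfold kk
  have := Real.cosh_pos (3 * l / 2)
  have := Real.pi_pos
  positivity

theorem kk_even (l : ℝ) : kk (-l) = kk l := by
  unfold kk
  have : 3 * (-l) / 2 = -(3 * l / 2) := by ring
  rw [this, Real.cosh_neg]

theorem kk_cont : Continuous kk := by
  unfold kk
  refine Continuous.div continuous_const ?_ ?_
  · exact continuous_const.mul (Real.continuous_cosh.comp (by fun_prop))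
  · intro l
    have := Real.cosh_pos (3 * l / 2)
    have := Real.pi_pos
    positivity

theorem a2a_cosh (x : ℝ) : Real.exp |x| / 2 ≤ Real.cosh x := by
  rw [Real.cosh_eq]
  rcases abs_cases x with ⟨h, _⟩ | ⟨h, _⟩ <;> rw [h]
  · have := Real.exp_pos (-x)
    linarith
  · have := Real.exp_pos x
    linarith

theorem kk_le (l : ℝ) : kk l ≤ 3 / (2 * Real.pi) * Real.exp (-(3 * |l| / 2)) := by
  unfold kk
  have h1 := a2a_cosh (3 * l / 2)
  have h2 : |3 * l / 2| = 3 * |l| / 2 := by
    rw [abs_div, abs_mul]; norm_num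
  rw [h2] at h1
  have hpi := Real.pi_pos
  have hc := Real.cosh_pos (3 * l / 2)
  have he := Real.exp_pos (3 * |l| / 2)
  rw [Real.exp_neg, div_mul_eq_mul_div, div_le_div_iff₀ (by positivity) (by positivity)]
  have h3 : 1 ≤ 2 * Real.cosh (3 * l / 2) * (Real.exp (3 * |l| / 2))⁻¹ := by
    rw [← div_eq_mul_inv, le_div_iff₀ he]
    linarith
  nlinarith [mul_le_mul_of_nonneg_left h3 (by positivity : (0:ℝ) ≤ 6 * Real.pi)]

theorem exp_abs_integrable (c : ℝ) (hc : 0 < c) :
    Integrable (fun l : ℝ => Real.exp (-(c * |l|))) := by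
  rw [← integrableOn_univ, ← Set.Iic_union_Ioi (a := (0 : ℝ))]
  refine IntegrableOn.union ?_ ?_
  · refine (integrableOn_exp_mul_Iic (a := c) hc 0).congr_fun ?_ measurableSet_Iic
    intro x hx
    simp only [Set.mem_Iic] at hx
    simp only
    congr 1
    rw [abs_of_nonpos hx]; ring
  · refine (exp_neg_integrableOn_Ioi 0 (b := c) hc).congr_fun ?_ measurableSet_Ioi
    intro x hx
    simp only [Set.mem_Ioi] at hx
    simp only
    congr 1
    rw [abs_of_pos hx]; ring

theorem kk_integrable : Integrable kk := by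
  refine ((exp_abs_integrable (3 / 2) (by norm_num)).const_mul
    (3 / (2 * Real.pi))).mono' kk_cont.aestronglyMeasurable ?_
  refine Eventually.of_forall fun l => ?_
  rw [Real.norm_eq_abs, abs_of_pos (kk_pos l)]
  refine (kk_le l).trans (le_of_eq ?_)
  congr 2
  ring

theorem kk_integral : ∫ u : ℝ, kk u = 1 / 2 := by
  have hd : ∀ l : ℝ, HasDerivAt (fun l => 1 / Real.pi * Real.arctan (Real.exp (3 * l / 2)))
      (kk l) l := by
    intro l
    have h1 : HasDerivAt (fun l : ℝ => 3 * l / 2) (3 / 2) l := by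
      have := ((hasDerivAt_id l).const_mul 3).div_const 2
      simpa using this
    have h2 := (h1.exp.arctan).const_mul (1 / Real.pi)
    refine h2.congr_deriv ?_
    unfold kk
    rw [Real.cosh_eq, Real.exp_neg]
    have he := Real.exp_pos (3 * l / 2)
    have hpi := Real.pi_pos
    field_simp
    ring
  have hbot : Tendsto (fun l => 1 / Real.pi * Real.arctan (Real.exp (3 * l / 2))) atBot (𝓝 0) := by
    have h1 : Tendsto (fun l : ℝ => 3 * l / 2) atBot atBot := by
      have : (fun l : ℝ => 3 * l / 2) = fun l => (3 / 2) * l := by funext l; ring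
      rw [this]
      exact tendsto_id.const_mul_atBot (by norm_num)
    have h2 := Real.tendsto_exp_atBot.comp h1
    have h3 := (Real.continuous_arctan.tendsto 0).comp h2
    have h4 := h3.const_mul (1 / Real.pi)
    simpa [Function.comp_def] using h4
  have htop : Tendsto (fun l => 1 / Real.pi * Real.arctan (Real.exp (3 * l / 2))) atTop
      (𝓝 (1 / 2)) := by
    have h1 : Tendsto (fun l : ℝ => 3 * l / 2) atTop atTop := by
      have : (fun l : ℝ => 3 * l / 2) = fun l => (3 / 2) * l := by funext l; ring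
      rw [this]
      exact tendsto_id.const_mul_atTop (by norm_num)
    have h2 := Real.tendsto_exp_atTop.comp h1
    have h3 := Real.tendsto_arctan_atTop.comp h2
    have h3' := h3.mono_right nhdsWithin_le_nhds
    have h4 := h3'.const_mul (1 / Real.pi)
    have h5 : 1 / Real.pi * (Real.pi / 2) = 1 / 2 := by
      have := Real.pi_pos
      field_simp
    rw [h5] at h4
    exact h4
  have := integral_of_hasDerivAt_of_tendsto hd kk_integrable hbot htop
  rw [this]; norm_num

/-- the kernel decreases: `kk (u + v) ≤ kk (u - v)` for `u, v ≥ 0` -/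
theorem kk_add_le (u v : ℝ) (hu : 0 ≤ u) (hv : 0 ≤ v) : kk (u + v) ≤ kk (u - v) := by
  unfold kk
  have hpi := Real.pi_pos
  have h1 : Real.cosh (3 * (u - v) / 2) ≤ Real.cosh (3 * (u + v) / 2) := by
    rw [Real.cosh_le_cosh]
    rw [← sq_le_sq]
    nlinarith [mul_nonneg hu hv]
  have h2 := Real.cosh_pos (3 * (u - v) / 2)
  gcongr

variable {f h : ℝ → ℝ} {a b : ℝ}

theorem ev_bdd (hf : Ev f a) : ∃ M : ℝ, 0 ≤ M ∧ ∀ u, |f u| ≤ M := by
  obtain ⟨K, hK⟩ := hf.dec
  refine ⟨|a| + |K|, by positivity, fun u => ?_⟩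
  have h1 := (hK u).1
  have h2 : K * Real.exp (-|u|) ≤ |K| := by
    have h3 : Real.exp (-|u|) ≤ 1 := by
      rw [Real.exp_le_one_iff]
      linarith [abs_nonneg u]
    calc K * Real.exp (-|u|) ≤ |K| * Real.exp (-|u|) := by
          gcongr
          exact le_abs_self K
      _ ≤ |K| * 1 := by gcongr
      _ = |K| := mul_one _
  have h4 : |f u| ≤ |f u - a| + |a| := by
    have := abs_add_le (f u - a) a
    simpa using this
  linarith

theorem ev_deriv (hf : Ev f a) (u : ℝ) : HasDerivAt f (deriv f u) u :=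
  (hf.diff.differentiable (by norm_num)).differentiableAt.hasDerivAt

theorem ev_deriv_cont (hf : Ev f a) : Continuous (deriv f) :=
  hf.diff.continuous_deriv (by norm_num)

theorem ev_cont (hf : Ev f a) : Continuous f := hf.diff.continuous

theorem ev_deriv_int (hf : Ev f a) : Integrable (deriv f) := by
  obtain ⟨K, hK⟩ := hf.dec
  refine ((exp_abs_integrable 1 one_pos).const_mul K).mono'
    (ev_deriv_cont hf).aestronglyMeasurable ?_
  refine Eventually.of_forall fun l => ?_
  have := (hK l).2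
  simpa using this

theorem ev_deriv_bdd (hf : Ev f a) : ∃ M : ℝ, 0 ≤ M ∧ ∀ u, |deriv f u| ≤ M := by
  obtain ⟨K, hK⟩ := hf.dec
  refine ⟨|K|, by positivity, fun u => ?_⟩
  refine (hK u).2.trans ?_
  have h3 : Real.exp (-|u|) ≤ 1 := by
    rw [Real.exp_le_one_iff]
    linarith [abs_nonneg u]
  calc K * Real.exp (-|u|) ≤ |K| * Real.exp (-|u|) := by
        gcongr
        exact le_abs_self K
    _ ≤ |K| * 1 := by gcongr
    _ = |K| := mul_one _

theorem ev_deriv_odd (hf : Ev f a) (u : ℝ) : deriv f (-u) = -deriv f u := by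
  have h1 : (fun x => f (-x)) = f := funext hf.even
  have h2 := deriv_comp_neg f u
  rw [h1] at h2
  linarith

theorem ev_tendsto (hf : Ev f a) : Tendsto f atTop (𝓝 a) := by
  obtain ⟨K, hK⟩ := hf.dec
  rw [tendsto_iff_norm_sub_tendsto_zero]
  have h1 : Tendsto (fun u : ℝ => K * Real.exp (-|u|)) atTop (𝓝 0) := by
    have h2 : Tendsto (fun u : ℝ => Real.exp (-|u|)) atTop (𝓝 0) :=
      Real.tendsto_exp_neg_atTop_nhds_zero.comp tendsto_abs_atTop_atTop
    simpa using h2.const_mul K
  exact squeeze_zero (fun u => norm_nonneg _) (fun u => (hK u).1) h1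

/-- change of variables in the convolution -/
theorem conv_eq (g : ℝ → ℝ) (u : ℝ) :
    (∫ v : ℝ, kk (u - v) * g v) = ∫ w : ℝ, kk w * g (u - w) := by
  have := integral_sub_left_eq_self (fun w => kk w * g (u - w)) volume u
  rw [← this]
  congr 1
  funext v
  congr 2
  ring

theorem conv_int (g : ℝ → ℝ) (hg : Continuous g) (M : ℝ) (hM : ∀ u, |g u| ≤ M) (u : ℝ) :
    Integrable (fun w : ℝ => kk w * g (u - w)) := by
  refine (kk_integrable.mul_const M).mono' ?_ ?_
  · exact (kk_cont.mul (hg.comp (by fun_prop))).aestronglyMeasurable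
  · refine Eventually.of_forall fun w => ?_
    rw [norm_mul, Real.norm_eq_abs, Real.norm_eq_abs, abs_of_pos (kk_pos _)]
    exact mul_le_mul_of_nonneg_left (hM _) (kk_pos _).le

theorem conv_hasDeriv (hf : Ev f a) (u : ℝ) :
    HasDerivAt (fun u => ∫ v : ℝ, kk (u - v) * f v) (∫ v : ℝ, kk (u - v) * deriv f v) u := by
  obtain ⟨M, hM0, hM⟩ := ev_bdd hf
  obtain ⟨M', hM'0, hM'⟩ := ev_deriv_bdd hf
  have h1 := (hasDerivAt_integral_of_dominated_loc_of_deriv_le (μ := volume)
    (F := fun u w => kk w * f (u - w)) (F' := fun u w => kk w * deriv f (u - w))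
    (bound := fun w => kk w * M') (x₀ := u) (s := Set.univ) Filter.univ_mem
    (Eventually.of_forall fun x =>
      (conv_int f (ev_cont hf) M hM x).aestronglyMeasurable)
    (conv_int f (ev_cont hf) M hM u)
    (conv_int (deriv f) (ev_deriv_cont hf) M' hM' u).aestronglyMeasurable
    (Eventually.of_forall fun w x _ => by
      rw [norm_mul, Real.norm_eq_abs, Real.norm_eq_abs, abs_of_pos (kk_pos _)]
      exact mul_le_mul_of_nonneg_left (hM' _) (kk_pos _).le)
    (kk_integrable.mul_const M')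
    (Eventually.of_forall fun w x _ => by
      have h2 : HasDerivAt (fun x : ℝ => x - w) 1 x := (hasDerivAt_id x).sub_const w
      have h3 := (ev_deriv hf (x - w)).comp x h2
      have h4 := h3.const_mul (kk w)
      simpa [Function.comp_def] using h4)).2
  have h5 : (fun u => ∫ v : ℝ, kk (u - v) * f v) = fun u => ∫ w : ℝ, kk w * f (u - w) :=
    funext fun u => conv_eq f u
  rw [h5, conv_eq (deriv f) u]
  exact h1

theorem conv_bdd (hf : Ev f a) :
    ∃ M : ℝ, 0 ≤ M ∧ ∀ u, |∫ v : ℝ, kk (u - v) * f v| ≤ M := by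
  obtain ⟨M, hM0, hM⟩ := ev_bdd hf
  refine ⟨M / 2, by positivity, fun u => ?_⟩
  rw [conv_eq]
  have h1 := norm_integral_le_of_norm_le (f := fun w => kk w * f (u - w))
    (kk_integrable.mul_const M) (Eventually.of_forall fun w => by
      rw [norm_mul, Real.norm_eq_abs, Real.norm_eq_abs, abs_of_pos (kk_pos _)]
      exact mul_le_mul_of_nonneg_left (hM _) (kk_pos _).le)
  rw [Real.norm_eq_abs, integral_mul_const, kk_integral] at h1
  linarith

theorem conv_cont (hf : Ev f a) : Continuous (fun u => ∫ v : ℝ, kk (u - v) * f v) :=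
  continuous_iff_continuousAt.mpr fun u => (conv_hasDeriv hf u).continuousAt

theorem conv_tendsto (hf : Ev f a) :
    Tendsto (fun u => ∫ v : ℝ, kk (u - v) * f v) atTop (𝓝 (a / 2)) := by
  obtain ⟨M, hM0, hM⟩ := ev_bdd hf
  have h5 : (fun u => ∫ v : ℝ, kk (u - v) * f v) = fun u => ∫ w : ℝ, kk w * f (u - w) :=
    funext fun u => conv_eq f u
  rw [h5]
  have h6 : a / 2 = ∫ w : ℝ, kk w * a := by
    rw [integral_mul_const, kk_integral]
    ring
  rw [h6]
  refine tendsto_integral_filter_of_dominated_convergence (fun w => kk w * M) ?_ ?_ ?_ ?_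
  · exact Eventually.of_forall fun x => (conv_int f (ev_cont hf) M hM x).aestronglyMeasurable
  · refine Eventually.of_forall fun x => Eventually.of_forall fun w => ?_
    rw [norm_mul, Real.norm_eq_abs, Real.norm_eq_abs, abs_of_pos (kk_pos _)]
    exact mul_le_mul_of_nonneg_left (hM _) (kk_pos _).le
  · exact kk_integrable.mul_const M
  · refine Eventually.of_forall fun w => ?_
    have h7 : Tendsto (fun u : ℝ => u - w) atTop atTop :=
      tendsto_atTop_add_const_right _ _ tendsto_id
    exact ((ev_tendsto hf).comp h7).const_mul (kk w)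

/-- the product integrand -/
theorem prod_int (hh : Ev h b) :
    Integrable (fun p : ℝ × ℝ => deriv h p.2 * kk (p.1 - p.2)) (volume.prod volume) := by
  have := (ev_deriv_int hh).convolution_integrand (ContinuousLinearMap.mul ℝ ℝ) kk_integrable
    (μ := volume) (ν := volume)
  simpa using this

theorem convd_int (hh : Ev h b) : Integrable (fun u => ∫ v : ℝ, kk (u - v) * deriv h v) := by
  have := (prod_int hh).integral_prod_left
  refine this.congr (Eventually.of_forall fun u => ?_)
  simp only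
  congr 1
  funext v
  ring

theorem part1 (hf : Ev f a) (hh : Ev h b) :
    IntegrableOn (fun u => h u * ∫ v : ℝ, kk (u - v) * deriv f v) (Set.Ioi 0) := by
  obtain ⟨M, hM0, hM⟩ := ev_bdd hh
  refine Integrable.integrableOn ?_
  refine (convd_int hf).bdd_mul (c := M) (ev_cont hh).aestronglyMeasurable ?_
  exact Eventually.of_forall fun u => hM u

theorem part3 (hf : Ev f a) (hh : Ev h b) (h0 : h 0 = 0) :
    (∫ u in Set.Ioi (0 : ℝ), h u * ∫ v : ℝ, kk (u - v) * deriv f v) =
      a * b / 2 - ∫ u in Set.Ioi (0 : ℝ), deriv h u * ∫ v : ℝ, kk (u - v) * f v := by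
  have h1 := integral_Ioi_mul_deriv_eq_deriv_mul (a := (0 : ℝ)) (u := h)
    (v := fun u => ∫ v : ℝ, kk (u - v) * f v) (u' := deriv h)
    (v' := fun u => ∫ v : ℝ, kk (u - v) * deriv f v) (a' := 0) (b' := b * (a / 2))
    (fun x _ => ev_deriv hh x) (fun x _ => conv_hasDeriv hf x) (part1 hf hh)
    (by
      obtain ⟨M, hM0, hM⟩ := conv_bdd hf
      refine Integrable.integrableOn ?_
      exact (ev_deriv_int hh).mul_bdd (c := M) (conv_cont hf).aestronglyMeasurable
        (Eventually.of_forall fun u => hM u))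
    (by
      have h2 : Continuous (h * fun u => ∫ v : ℝ, kk (u - v) * f v) :=
        (ev_cont hh).mul (conv_cont hf)
      have h3 := (h2.tendsto 0).mono_left (nhdsWithin_le_nhds (s := Set.Ioi (0:ℝ)))
      simpa [h0] using h3)
    ((ev_tendsto hh).mul (conv_tendsto hf))
  rw [h1]
  ring

/-! ### Fubini -/

theorem quad_int0 (hh : Ev h b) :
    Integrable (fun p : ℝ × ℝ => kk (p.1 - p.2) * deriv h p.2)
      ((volume.restrict (Set.Ioi (0:ℝ))).prod (volume.restrict (Set.Ioi (0:ℝ)))) := by
  rw [Measure.prod_restrict]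
  refine Integrable.restrict ?_
  refine (prod_int hh).congr (Eventually.of_forall fun p => ?_)
  simp only
  ring

theorem quad_int1 (hf : Ev f a) (hh : Ev h b) :
    Integrable (fun p : ℝ × ℝ => f p.1 * (kk (p.1 - p.2) * deriv h p.2))
      ((volume.restrict (Set.Ioi (0:ℝ))).prod (volume.restrict (Set.Ioi (0:ℝ)))) := by
  obtain ⟨M, hM0, hM⟩ := ev_bdd hf
  exact (quad_int0 hh).bdd_mul (c := M) ((ev_cont hf).comp continuous_fst).aestronglyMeasurable
    (Eventually.of_forall fun p => hM p.1)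

theorem quad_int2 (hf : Ev f a) (hh : Ev h b) :
    Integrable (fun p : ℝ × ℝ => f p.1 * (kk (p.1 + p.2) * deriv h p.2))
      ((volume.restrict (Set.Ioi (0:ℝ))).prod (volume.restrict (Set.Ioi (0:ℝ)))) := by
  refine (quad_int1 hf hh).norm.mono' ?_ ?_
  · refine Continuous.aestronglyMeasurable ?_
    exact ((ev_cont hf).comp continuous_fst).mul
      ((kk_cont.comp (by fun_prop)).mul ((ev_deriv_cont hh).comp continuous_snd))
  · rw [Measure.prod_restrict]
    refine (ae_restrict_iff' (measurableSet_Ioi.prod measurableSet_Ioi)).mpr ?_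
    refine Eventually.of_forall fun p hp => ?_
    have h1 : 0 < p.1 := hp.1
    have h2 : 0 < p.2 := hp.2
    rw [norm_mul, norm_mul, norm_mul, norm_mul]
    gcongr
    rw [Real.norm_eq_abs, Real.norm_eq_abs, abs_of_pos (kk_pos _), abs_of_pos (kk_pos _)]
    exact kk_add_le _ _ h1.le h2.le

theorem slice_int (g : ℝ → ℝ) (hg : Integrable g) (u : ℝ) :
    Integrable (fun v : ℝ => kk (u - v) * g v) := by
  have h1 : ∀ l, |kk l| ≤ 3 / (2 * Real.pi) := fun l => by
    rw [abs_of_pos (kk_pos _)]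
    refine (kk_le l).trans ?_
    have h2 : Real.exp (-(3 * |l| / 2)) ≤ 1 := by
      rw [Real.exp_le_one_iff]
      have := abs_nonneg l
      linarith
    have h3 : 0 ≤ 3 / (2 * Real.pi) := by positivity
    calc 3 / (2 * Real.pi) * Real.exp (-(3 * |l| / 2)) ≤ 3 / (2 * Real.pi) * 1 := by gcongr
      _ = _ := mul_one _
  exact hg.bdd_mul (c := 3 / (2 * Real.pi))
    (kk_cont.comp (by fun_prop : Continuous fun v : ℝ => u - v)).aestronglyMeasurable
    (Eventually.of_forall fun v => h1 _)

theorem slice_int' (g : ℝ → ℝ) (hg : Continuous g) (M : ℝ) (hM : ∀ u, |g u| ≤ M) (u : ℝ) :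
    Integrable (fun v : ℝ => kk (u - v) * g v) := by
  have h1 : Integrable (fun v : ℝ => kk (u - v)) := kk_integrable.comp_sub_left u
  exact h1.mul_bdd (c := M) hg.aestronglyMeasurable (Eventually.of_forall fun v => hM v)

theorem split_int (g : ℝ → ℝ) (hg : Integrable g) :
    ∫ v : ℝ, g v = (∫ v in Set.Ioi (0:ℝ), g v) + ∫ v in Set.Ioi (0:ℝ), g (-v) := by
  have h1 := intervalIntegral.integral_Iic_add_Ioi (f := g) (b := 0) (μ := volume)
    hg.integrableOn hg.integrableOn
  have h2 := integral_comp_neg_Ioi (0:ℝ) g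
  rw [neg_zero] at h2
  rw [← h1, h2, add_comm]

theorem splitA (hh : Ev h b) (u : ℝ) :
    (∫ v : ℝ, kk (u - v) * deriv h v) = (∫ v in Set.Ioi (0:ℝ), kk (u - v) * deriv h v)
      - ∫ v in Set.Ioi (0:ℝ), kk (u + v) * deriv h v := by
  rw [split_int _ (slice_int _ (ev_deriv_int hh) u), sub_eq_add_neg, ← integral_neg]
  congr 2
  funext v
  rw [ev_deriv_odd hh, sub_neg_eq_add, mul_neg]

theorem splitB (hf : Ev f a) (u : ℝ) :
    (∫ v : ℝ, kk (u - v) * f v) = (∫ v in Set.Ioi (0:ℝ), kk (u - v) * f v)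
      + ∫ v in Set.Ioi (0:ℝ), kk (u + v) * f v := by
  obtain ⟨M, hM0, hM⟩ := ev_bdd hf
  rw [split_int _ (slice_int' _ (ev_cont hf) M hM u)]
  congr 2
  funext v
  rw [hf.even, sub_neg_eq_add]

theorem partA (hf : Ev f a) (hh : Ev h b) :
    (∫ u in Set.Ioi (0 : ℝ), f u * ∫ v : ℝ, kk (u - v) * deriv h v) =
      (∫ u in Set.Ioi (0 : ℝ), ∫ v in Set.Ioi (0 : ℝ), f u * (kk (u - v) * deriv h v))
      - ∫ u in Set.Ioi (0 : ℝ), ∫ v in Set.Ioi (0 : ℝ), f u * (kk (u + v) * deriv h v) := by
  rw [← integral_sub (quad_int1 hf hh).integral_prod_left (quad_int2 hf hh).integral_prod_left]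
  congr 1
  funext u
  rw [splitA hh, mul_sub, ← integral_const_mul, ← integral_const_mul]

theorem swap_int {F : ℝ → ℝ → ℝ}
    (hF : Integrable (Function.uncurry F)
      ((volume.restrict (Set.Ioi (0:ℝ))).prod (volume.restrict (Set.Ioi (0:ℝ))))) :
    (∫ u in Set.Ioi (0 : ℝ), ∫ v in Set.Ioi (0 : ℝ), F v u) =
      ∫ u in Set.Ioi (0 : ℝ), ∫ v in Set.Ioi (0 : ℝ), F u v :=
  (integral_integral_swap hF).symm

theorem partB (hf : Ev f a) (hh : Ev h b) :
    (∫ u in Set.Ioi (0 : ℝ), deriv h u * ∫ v : ℝ, kk (u - v) * f v) =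
      (∫ u in Set.Ioi (0 : ℝ), ∫ v in Set.Ioi (0 : ℝ), f u * (kk (u - v) * deriv h v))
      + ∫ u in Set.Ioi (0 : ℝ), ∫ v in Set.Ioi (0 : ℝ), f u * (kk (u + v) * deriv h v) := by
  have e1 := swap_int (F := fun u v => f u * (kk (u - v) * deriv h v)) (quad_int1 hf hh)
  have e2 := swap_int (F := fun u v => f u * (kk (u + v) * deriv h v)) (quad_int2 hf hh)
  rw [← e1, ← e2]
  rw [← integral_add (quad_int1 hf hh).integral_prod_right
    (quad_int2 hf hh).integral_prod_right]
  congr 1
  funext u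
  rw [splitB hf, mul_add, ← integral_const_mul, ← integral_const_mul]
  congr 2
  · funext v
    rw [← kk_even (u - v), neg_sub]
    ring
  · funext v
    rw [add_comm u v]
    ring

end W501DBL

open W501DBL in
/-- the double integral -/
theorem cl_dbl : S_dbl := by
  intro f h a b hf hh h0
  refine ⟨part1 hf hh, part1 hh hf, ?_⟩
  rw [part3 hf hh h0, partA hf hh, partB hf hh]
  have e3 : (∫ v in Set.Ioi (0 : ℝ), f v * ∫ u in Set.Ioi (0 : ℝ), deriv h u * kk (u + v)) =
      ∫ u in Set.Ioi (0 : ℝ), ∫ v in Set.Ioi (0 : ℝ), f u * (kk (u + v) * deriv h v) := by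
    congr 1
    funext v
    rw [← integral_const_mul]
    congr 1
    funext u
    rw [add_comm u v]
    ring
  rw [e3]
  ring

end W96CL
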